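import Pool.Agent.H9.Lap.TargetsG

/-!
MP_c4ad93_co: modules SPE, GRE, CPL, GCN, GNU, SGF, STR (the side of the graph).
-/

namespace Pool.Agent.H54.Lap

open Finset Classical Pool.Agent.H9.Lap

theorem spe : T_SPE := by
  intro V _ G x
  have h1 : ∀ (f : V → ℝ) (v : V),
      (G.lapMatrix ℝ).mulVec f v = ∑ w ∈ nb G v, (f v - f w) := by
    intro f v
    have h2 : G.neighborFinset v = nb G v := by
      ext w
      simp [nb]
    rw [SimpleGraph.lapMatrix_mulVec_apply, Finset.sum_sub_distrib, Finset.sum_const,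
      nsmul_eq_mul, ← SimpleGraph.card_neighborFinset_eq_degree, h2]
  rw [← Matrix.spectrum_toLin', ← Module.End.hasEigenvalue_iff_mem_spectrum]
  constructor
  · intro h
    obtain ⟨f, hf⟩ := h.exists_hasEigenvector
    refine ⟨f, Function.ne_iff.1 hf.2, fun v => ?_⟩
    have h3 := congrFun hf.apply_eq_smul v
    rw [Matrix.toLin'_apply, h1] at h3
    rw [h3]
    rfl
  · rintro ⟨f, ⟨v, hv⟩, hf⟩
    refine Module.End.hasEigenvalue_of_hasEigenvector (x := f)
      ⟨Module.End.mem_eigenspace_iff.2 ?_, fun h => hv (congrFun h v)⟩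
    funext u
    rw [Matrix.toLin'_apply, h1, hf u]
    rfl

theorem gre : T_GRE := by
  intro V _ _ G
  have hA : (G.lapMatrix ℝ).IsHermitian := (SimpleGraph.posSemidef_lapMatrix ℝ G).isHermitian
  obtain ⟨i, hi⟩ := Finite.exists_max hA.eigenvalues
  refine ⟨hA.eigenvalues i, ?_⟩
  rw [IsLapIndex, hA.spectrum_real_eq_range_eigenvalues]
  refine ⟨⟨i, rfl⟩, ?_⟩
  rintro _ ⟨j, rfl⟩
  exact hi j

theorem cpl : T_CPL := by
  intro V _ G x f hx hf
  have h0 : ∑ v, f v = 0 := by
    have h1 := inner_zero G f univ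
    simp only [Finset.inter_univ] at h1
    rw [Finset.sum_congr rfl fun v _ => hf v, ← Finset.mul_sum] at h1
    exact (mul_eq_zero.1 h1).resolve_left hx
  refine ⟨h0, fun v => ?_⟩
  have h1 : ∑ w, (f v - f w) = (Fintype.card V : ℝ) * f v := by
    rw [Finset.sum_sub_distrib, h0, Finset.sum_const, nsmul_eq_mul, sub_zero, Finset.card_univ]
  have h2 : ∑ w, (f v - f w) = ∑ w ∈ nb Gᶜ v, (f v - f w) + ∑ w ∈ nb G v, (f v - f w) := by
    have h3 : (univ : Finset V) = insert v (nb Gᶜ v ∪ nb G v) := by
      ext w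
      simp only [mem_univ, mem_insert, mem_union, mem_nb, SimpleGraph.compl_adj, true_iff]
      by_cases h : w = v
      · exact Or.inl h
      · by_cases h' : G.Adj v w
        · exact Or.inr (Or.inr h')
        · exact Or.inr (Or.inl ⟨fun e => h e.symm, h'⟩)
    have h4 : v ∉ nb Gᶜ v ∪ nb G v := by
      simp [mem_nb]
    have h5 : Disjoint (nb Gᶜ v) (nb G v) := by
      rw [Finset.disjoint_left]
      intro w hw hw'
      rw [mem_nb, SimpleGraph.compl_adj] at hw
      exact hw.2 (mem_nb.1 hw')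
    rw [h3, Finset.sum_insert h4, Finset.sum_union h5]
    ring
  have h3 := hf v
  rw [h1] at h2
  linarith

theorem gcn : T_GCN := by
  intro V _ G t h S hS
  by_contra hcon
  push Not at hcon
  have h1 : IsDom G S := by
    intro v hv
    obtain ⟨s, hs, hadj⟩ := hcon v
    refine ⟨s, hs, ?_⟩
    by_contra h2
    apply hadj
    rw [SimpleGraph.compl_adj]
    exact ⟨fun e => hv (e ▸ hs), fun h3 => h2 h3.symm⟩
  have h2 := h.2 ⟨S, h1, rfl⟩
  omega

theorem gnu : T_GNU := by
  intro V _ G hG hV v
  have : Nontrivial V := Fintype.one_lt_card_iff_nontrivial.1 (by omega)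
  obtain ⟨u, hu⟩ := hG.preconnected.exists_adj_of_nontrivial v
  exact ⟨u, hu.ne', fun h => by
    rw [SimpleGraph.compl_adj] at h
    exact h.2 hu⟩

theorem sgf : T_SGF := by
  intro V _ G t
  unfold Extremal Struct
  have e1 : t + 2 - 1 = t + 1 := by omega
  rw [e1]
  have hcard : ∀ A C : Finset V, Disjoint A C →
      ((∀ c ∈ C, (A.filter (fun a => G.Adj c a)).card = 2) ↔
        ∀ c ∈ C, (A.filter (fun a => ¬ Gᶜ.Adj c a)).card = 2) ∧
      ((∀ a ∈ A, ∃! c, c ∈ C ∧ G.Adj c a) ↔ ∀ a ∈ A, ∃! c, c ∈ C ∧ ¬ Gᶜ.Adj c a) := by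
    intro A C hAC
    have key : ∀ c ∈ C, ∀ a ∈ A, (G.Adj c a ↔ ¬ Gᶜ.Adj c a) := by
      intro c hc a ha
      have hne : c ≠ a := fun e => Finset.disjoint_left.1 hAC ha (e ▸ hc)
      rw [SimpleGraph.compl_adj]
      tauto
    constructor
    · refine forall₂_congr fun c hc => ?_
      rw [Finset.filter_congr fun a ha => key c hc a ha]
    · refine forall₂_congr fun a ha => ?_
      refine existsUnique_congr fun c => ?_
      exact and_congr_right fun hc => key c hc a ha
  constructor
  · rintro ⟨A, C, hAC, hC, hA, h1, h2, h3, h4⟩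
    refine ⟨A, C, hAC, hC, hA, ?_, ?_, fun c hc => ?_, (hcard A C hAC).2.1 h4⟩
    · intro a ha v hv hv' hadj
      rw [SimpleGraph.compl_adj] at hadj
      exact hadj.2 (h1 a ha v hv hv')
    · intro c hc v hv hv'
      rw [SimpleGraph.compl_adj]
      exact ⟨fun e => hv' (e ▸ hc), h2 c hc v hv hv'⟩
    · convert (hcard A C hAC).1.1 h3 c hc
  · rintro ⟨A, C, hAC, hC, hA, h1, h2, h3, h4⟩
    refine ⟨A, C, hAC, hC, hA, ?_, ?_, (hcard A C hAC).1.2 fun c hc => ?_,
      (hcard A C hAC).2.2 h4⟩
    · intro a ha v hv hv'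
      by_contra hadj
      refine h1 a ha v hv hv' ?_
      rw [SimpleGraph.compl_adj]
      exact ⟨fun e => hv (e ▸ ha), hadj⟩
    · intro c hc v hv hv'
      have := h2 c hc v hv hv'
      rw [SimpleGraph.compl_adj] at this
      exact this.2
    · convert h3 c hc

theorem str (hSPE : T_SPE) : T_STR := by
  intro V _ G g x hg hN hext hx hx2
  obtain ⟨A, C, hAC, hC, hA, h1, h2, h3, h4⟩ := hext
  set N : ℝ := (Fintype.card V : ℝ) with hNdef
  have hg3 : (3 : ℝ) ≤ g := by exact_mod_cast hg
  set A' : ℝ := 2 * ((g : ℝ) - 1) with hA'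
  have hcA : (A.card : ℝ) = A' := by
    rw [hA]
    push_cast [Nat.cast_sub (show 1 ≤ g by omega)]
    rfl
  have hcC : (C.card : ℝ) = (g : ℝ) - 1 := by
    rw [hC]
    push_cast [Nat.cast_sub (show 1 ≤ g by omega)]
    rfl
  set B : Finset V := univ.filter (fun v => v ∉ A ∧ v ∉ C) with hB
  have hmB : ∀ v, v ∈ B ↔ v ∉ A ∧ v ∉ C := fun v => by simp [hB]
  have hABd : Disjoint (A ∪ C) B := by
    rw [Finset.disjoint_left]
    intro v hv hvB
    rw [hmB] at hvB
    rcases Finset.mem_union.1 hv with h | h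
    · exact hvB.1 h
    · exact hvB.2 h
  have huniv : (univ : Finset V) = (A ∪ C) ∪ B := by
    ext v
    simp only [mem_univ, mem_union, hmB, true_iff]
    tauto
  have hcB : (B.card : ℝ) = N - 3 * ((g : ℝ) - 1) := by
    have h5 : Fintype.card V = A.card + C.card + B.card := by
      rw [← Finset.card_univ, huniv, Finset.card_union_of_disjoint hABd,
        Finset.card_union_of_disjoint hAC]
    have h6 : N = (A.card : ℝ) + C.card + B.card := by
      rw [hNdef, h5]; push_cast; ring
    rw [hcA, hcC] at h6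
    rw [hA'] at h6
    linarith
  have hxA : A' < x := by
    rw [hA']
    nlinarith
  have hx2' : 2 < x := by
    nlinarith
  set f : V → ℝ := fun v => if v ∈ A then (x - 2) * (x - A') else
    if v ∈ C then -2 * (x - A') else -A' * (x - 2) with hf
  have fA : ∀ v ∈ A, f v = (x - 2) * (x - A') := fun v hv => by simp [hf, hv]
  have fC : ∀ v ∈ C, f v = -2 * (x - A') := fun v hv => by
    have : v ∉ A := fun h => Finset.disjoint_left.1 hAC h hv
    simp [hf, hv, this]
  have fB : ∀ v ∈ B, f v = -A' * (x - 2) := fun v hv => by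
    rw [hmB] at hv
    simp [hf, hv.1, hv.2]
  have hsplit : ∀ v, ∑ w ∈ nb G v, (f v - f w) =
      ∑ w ∈ A, (if G.Adj v w then f v - f w else 0) +
      ∑ w ∈ C, (if G.Adj v w then f v - f w else 0) +
      ∑ w ∈ B, (if G.Adj v w then f v - f w else 0) := by
    intro v
    rw [← Finset.sum_union hAC, ← Finset.sum_union hABd, ← huniv, nb, Finset.sum_filter]
  rw [hSPE V G x]
  refine ⟨f, ?_, fun v => ?_⟩
  · have hne : A.Nonempty := by
      rw [← Finset.card_pos, hA]
      omega
    obtain ⟨a, ha⟩ := hne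
    refine ⟨a, ?_⟩
    rw [fA a ha]
    exact mul_ne_zero (by linarith) (by linarith)
  · rw [hsplit v]
    by_cases hvA : v ∈ A
    · have s1 : ∑ w ∈ A, (if G.Adj v w then f v - f w else 0) = 0 := by
        refine Finset.sum_eq_zero fun w hw => ?_
        rw [fA v hvA, fA w hw]
        simp
      have s2 : ∑ w ∈ C, (if G.Adj v w then f v - f w else 0) = x * (x - A') := by
        obtain ⟨c, ⟨hc, hcv⟩, huq⟩ := h4 v hvA
        rw [Finset.sum_eq_single_of_mem c hc, if_pos hcv.symm, fA v hvA, fC c hc]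
        · ring
        · intro w hw hwc
          rw [if_neg]
          intro hadj
          exact hwc (huq w ⟨hw, hadj.symm⟩)
      have s3 : ∑ w ∈ B, (if G.Adj v w then f v - f w else 0) = B.card * (x * (x - 2)) := by
        rw [Finset.sum_congr rfl (g := fun _ => x * (x - 2)), Finset.sum_const, nsmul_eq_mul]
        intro w hw
        have hw' := (hmB w).1 hw
        rw [if_pos (h1 v hvA w hw'.1 hw'.2), fA v hvA, fB w hw]
        ring
      rw [s1, s2, s3, hcB, fA v hvA, hA']
      linear_combination (-x) * hx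
    · by_cases hvC : v ∈ C
      · have s1 : ∑ w ∈ A, (if G.Adj v w then f v - f w else 0) = 2 * (-(x * (x - A'))) := by
          rw [← Finset.sum_filter, Finset.sum_congr rfl (g := fun _ => -(x * (x - A'))),
            Finset.sum_const, h3 v hvC, nsmul_eq_mul]
          · push_cast; ring
          · intro w hw
            rw [fC v hvC, fA w (Finset.mem_filter.1 hw).1]
            ring
        have s2 : ∑ w ∈ C, (if G.Adj v w then f v - f w else 0) = 0 := by
          refine Finset.sum_eq_zero fun w hw => ?_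
          rw [fC v hvC, fC w hw]
          simp
        have s3 : ∑ w ∈ B, (if G.Adj v w then f v - f w else 0) = 0 := by
          refine Finset.sum_eq_zero fun w hw => ?_
          have hw' := (hmB w).1 hw
          rw [if_neg (h2 v hvC w hw'.1 hw'.2)]
        rw [s1, s2, s3, fC v hvC]
        ring
      · have hvB : v ∈ B := (hmB v).2 ⟨hvA, hvC⟩
        have s1 : ∑ w ∈ A, (if G.Adj v w then f v - f w else 0) = A.card * (-(x * (x - 2))) := by
          rw [Finset.sum_congr rfl (g := fun _ => -(x * (x - 2))), Finset.sum_const, nsmul_eq_mul]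
          intro w hw
          rw [if_pos (h1 w hw v hvA hvC).symm, fB v hvB, fA w hw]
          ring
        have s2 : ∑ w ∈ C, (if G.Adj v w then f v - f w else 0) = 0 := by
          refine Finset.sum_eq_zero fun w hw => ?_
          rw [if_neg fun h => h2 w hw v hvA hvC h.symm]
        have s3 : ∑ w ∈ B, (if G.Adj v w then f v - f w else 0) = 0 := by
          refine Finset.sum_eq_zero fun w hw => ?_
          rw [fB v hvB, fB w hw]
          simp
        rw [s1, s2, s3, fB v hvB, hcA]
        ring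

end Pool.Agent.H54.Lap
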